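import Pool.Agent.V5helper96.BM.Gap2
import Pool.Agent.V5helper96.BM.Hil

/-!
# Banach-Mazur rotation problem: one isometry near the identity modulo small operators

Let `E` be an infinite-dimensional real Banach space, separable or not, such that the surjective
linear almost isometries have dense orbits on the unit sphere (for instance, such that the isometry
group has dense orbits). Then the following are equivalent.

* `E` is a Hilbert space.
* There is ONE isometry `T ≠ 1` such that `T - 1` is compact.
* There is ONE isometry `T ≠ 1` such that `T - 1` is strictly singular.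
* There are isometries `T ≠ 1` for which the Bernstein widths of `T - 1`, divided by `‖T - 1‖`,
  satisfy longer and longer initial parts of one fixed sequence of bounds tending to zero.
* There are surjective `(1 + 1/n)`-isometries `T n` with `‖T n - 1‖ ≥ δ > 0`, for which the
  Bernstein widths of `T n - 1` satisfy longer and longer initial parts of one fixed sequence of
  bounds tending to zero.

Proof outline (files `Pool/Agent/V5helper96/BM/*`). The main point is that the second statement
implies the first one when the isometry group has dense orbits (A, B); then C.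

A. There are isometries `S k ≠ 1` with `S k - 1` compact and `‖S k - 1‖ → 0`.

* `Ult.lean`, `Ult2.lean`: pass to an ultrapower `X` of `E`. Its norm is transitive, the isometry `T`
  gives an isometry of `X` which is a nontrivial compact perturbation of the identity, and the
  operators `(S k - 1) / ‖S k - 1‖` give an operator `D` on `X` such that `exp (t D)` is an isometry
  for all `t` and `‖D z‖ < ‖D‖ ‖z‖` for some `z`.
* `Four.lean`, `Calc.lean`: a functional calculus with absolutely summable Fourier series gives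
  operators of finite rank in the algebra generated by `T`.
* `StepX.lean`: `D` does not commute with all conjugates of `T` (the operators which do form a
  division algebra of multiples of isometries by the library `TH596/RO`).
* `FinRk.lean`: from `D` and a conjugate of `T` one obtains an operator `F ≠ 0` of FINITE rank such
  that `exp (t F)` is an isometry for all `t`.
* `Alg.lean`, `Bin.lean`, `Form.lean`: the conjugates of `F` have no common invariant subspace in
  the sum of their ranges, which is everything. Finitely many of them are skew for an inner product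
  on the sum of their ranges; suitably normalised these inner products converge along an ultrafilter
  to a form for which all conjugates of `F` are skew. It is unique up to multiples and the norm is
  transitive, so it is a multiple of the square of the norm.

B. The discrete case: for some `ε > 0` there is no isometry `S ≠ 1` with `S - 1` compact and
`‖S - 1‖ < ε`. This is impossible.

* `Weak.lean`: the orbits of the vectors `T x - x` under `T` are relatively compact, so there are
  times `l i` with `‖(T ^ l i - 1) (T - 1)‖` so small that all the subset sums of the operators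
  `T ^ l i - 1` are bounded. A compact operator maps such a (weakly unconditionally Cauchy) series
  to a null sequence, so `A (T ^ l i - 1) B → 0` in norm for all compact `A`, `B`. (In general
  `T ^ l i` does NOT tend to `1` pointwise along any sequence of times.)
* `Cube.lean`: for an isometry `U` with `U - 1` compact this gives `‖(S i - 1) ^ 3‖ → 0` for the
  commutator `S i` of `T ^ l i` and `U`; as `S i` is an isometry, `‖S i - 1‖ → 0`, and hence some
  power `T ^ l`, `l ≥ 1`, commutes with `U`.
* `Comm.lean`: then the commutator of `T` and `U` is a FINITE rank perturbation of the identity.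
* `FinGrp.lean`, `FRank.lean`, `NoFR.lean`: in the discrete case a finite rank perturbation `S ≠ 1`
  of the identity generates with finitely many conjugates a finite group. Take an intersection `W`
  of finitely many conjugates of the range of `S - 1`, nonzero and of minimal dimension, a unit
  vector `x` of `W` and isometries `h k` with `h k x → x` and `h k x` outside `W`. An ultrapower
  shows that along an ultrafilter the groups generated by the conjugates for `W` and for `h k W` are
  representations of one finite group, and Maschke's theorem gives a nonzero vector in the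
  intersection of `W` and `h k W`; so `h k W = W` by minimality, a contradiction.
* So `T` commutes with all its conjugates, which is impossible by the library `TH596/RO`.

C. The general statements.

* `SSC.lean`: for an isometry `T` such that `T - 1` is strictly singular, `T - 1` is compact: the
  functions of `T` with support away from `1` have finite rank, since on the range of such a
  function with small support `(T + T⁻¹) / 2` is near a number `c < 1`, so that `T - 1` is bounded
  below there; and `T` is near the identity on the range of a function with support near `1`.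
* `AIso.lean`, `Bern.lean`: in an ultrapower `X` of `E` almost isometries become isometries, so the
  norm of `X` is transitive; Bernstein widths pass to the ultrapower, so the ultraproduct of the
  `T n` is a strictly singular perturbation of the identity.
* `Gap2.lean`: the theorem for `X` gives the parallelogram law in `X`, hence in `E`; for isometries
  near the identity one takes powers with displacement at least `1 / 4`.
-/

set_option autoImplicit false

namespace Pool.Agent.Results.MP_cc72b1_an.CompactPerturbations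

open Pool.Agent.V5helper96.BM
open Pool.H590R3.Ab (op)

/-- `E` is linearly isometric to a real Hilbert space -/
def IsHilbert (E : Type) [NormedAddCommGroup E] [NormedSpace ℝ E] : Prop :=
  ∃ (H : Type) (_ : NormedAddCommGroup H) (_ : InnerProductSpace ℝ H) (_ : CompleteSpace H),
    Nonempty (E ≃ₗᵢ[ℝ] H)

/-- `T` is a compact perturbation of the identity and not the identity -/
def CompactPert {E : Type} [NormedAddCommGroup E] [NormedSpace ℝ E] (T : E ≃ₗᵢ[ℝ] E) : Prop :=
  (∃ x, T x ≠ x) ∧ IsCompactOperator (fun x : E => T x - x)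

section
variable {E : Type} [NormedAddCommGroup E] [NormedSpace ℝ E]

lemma isHilbert_of [CompleteSpace E]
    (h : ∀ x y : E, ‖x + y‖ ^ 2 + ‖x - y‖ ^ 2 = 2 * ‖x‖ ^ 2 + 2 * ‖y‖ ^ 2) : IsHilbert E :=
  ⟨E, inferInstance, InnerProductSpace.ofNorm ℝ (fun x y => by
    have := h x y
    nlinarith), inferInstance, ⟨LinearIsometryEquiv.refl ℝ E⟩⟩

lemma compactPert_iff {T : E ≃ₗᵢ[ℝ] E} : CompactPert T ↔ T ≠ 1 ∧ op T - 1 ∈ KK E := by
  have h : T ≠ 1 ↔ ∃ x, T x ≠ x := by
    constructor
    · intro h
      by_contra hcon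
      push Not at hcon
      exact h (LinearIsometryEquiv.ext hcon)
    · rintro ⟨x, hx⟩ h
      apply hx
      rw [h]
      rfl
  rw [h]
  exact Iff.rfl

lemma exists_of_isHilbert (hE : ¬ FiniteDimensional ℝ E) (h : IsHilbert E) :
    ∃ S : E ≃ₗᵢ[ℝ] E, CompactPert S := by
  obtain ⟨H, _, _, _, ⟨Φ⟩⟩ := h
  have hH : ¬ FiniteDimensional ℝ H := by
    intro h
    exact hE (Module.Finite.equiv Φ.symm.toLinearEquiv)
  obtain ⟨S, hS1, hS2, hS3⟩ := hilbert_small hH one_pos
  refine ⟨(Φ.trans S).trans Φ.symm, ⟨?_, ?_⟩⟩
  · by_contra hcon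
    push Not at hcon
    apply hS1
    ext z
    have h1 : Φ.symm (S (Φ (Φ.symm z))) = Φ.symm z := hcon (Φ.symm z)
    rw [Φ.apply_symm_apply] at h1
    exact Φ.symm.injective h1
  · have h1 : IsCompactOperator (fun z : E => S (Φ z) - Φ z) :=
      (mem_KK.1 hS2).comp_clm (Φ.toContinuousLinearEquiv : E →L[ℝ] H)
    have h2 : IsCompactOperator (fun z : E =>
        (Φ.symm.toContinuousLinearEquiv : H →L[ℝ] E) (S (Φ z) - Φ z)) := h1.clm_comp _
    have h3 : (fun z : E => ((Φ.trans S).trans Φ.symm) z - z) = fun z : E =>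
        (Φ.symm.toContinuousLinearEquiv : H →L[ℝ] E) (S (Φ z) - Φ z) := by
      funext z
      rw [map_sub]
      show Φ.symm (S (Φ z)) - z = Φ.symm (S (Φ z)) - Φ.symm (Φ z)
      rw [Φ.symm_apply_apply]
    rw [h3]
    exact h2

end

/-- `T` is a linear homeomorphism of `E` onto `E` which changes norms at most by the factor
`1 + ε` -/
def AlmostIso {E : Type} [NormedAddCommGroup E] [NormedSpace ℝ E] (ε : ℝ) (T : E ≃L[ℝ] E) : Prop :=
  ∀ z : E, ‖T z‖ ≤ (1 + ε) * ‖z‖ ∧ ‖z‖ ≤ (1 + ε) * ‖T z‖

/-- the norm of `T - 1` -/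
noncomputable def disp {E : Type} [NormedAddCommGroup E] [NormedSpace ℝ E] (T : E ≃L[ℝ] E) : ℝ :=
  ‖(T : E →L[ℝ] E) - ContinuousLinearMap.id ℝ E‖

/-- every subspace of dimension greater than `m` contains a vector `x ≠ 0` with
`‖T x - x‖ ≤ c ‖x‖` -/
def Width {E : Type} [NormedAddCommGroup E] [NormedSpace ℝ E] (m : ℕ) (c : ℝ) (T : E ≃L[ℝ] E) :
    Prop :=
  ∀ G : Submodule ℝ E, FiniteDimensional ℝ G → m < Module.finrank ℝ G →
    ∃ x ∈ G, x ≠ 0 ∧ ‖T x - x‖ ≤ c * ‖x‖

/-- `T` is not the identity and `T - 1` is strictly singular: it is not bounded below on any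
infinite-dimensional subspace -/
def SingPert {E : Type} [NormedAddCommGroup E] [NormedSpace ℝ E] (T : E ≃ₗᵢ[ℝ] E) : Prop :=
  (∃ x, T x ≠ x) ∧ ∀ Y : Submodule ℝ E,
    (∃ c : ℝ, 0 < c ∧ ∀ y ∈ Y, c * ‖y‖ ≤ ‖T y - y‖) → FiniteDimensional ℝ Y

section
variable {E : Type} [NormedAddCommGroup E] [NormedSpace ℝ E]

lemma isometry_almost (T : E ≃ₗᵢ[ℝ] E) {ε : ℝ} (hε : 0 ≤ ε) :
    AlmostIso ε T.toContinuousLinearEquiv := by
  intro z
  have h : ‖T.toContinuousLinearEquiv z‖ = ‖z‖ := T.norm_map z
  rw [h]
  have := norm_nonneg z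
  constructor <;> nlinarith

lemma singPert_of_compactPert {T : E ≃ₗᵢ[ℝ] E} (hT : CompactPert T) : SingPert T := by
  refine ⟨hT.1, ?_⟩
  rw [compactPert_iff] at hT
  exact SS_of_Bn fun ε hε => Bn_of_KK hT.2 hε

lemma compactPert_of_singPert [CompleteSpace E] {T : E ≃ₗᵢ[ℝ] E} (hT : SingPert T) :
    CompactPert T := ⟨hT.1, KK_of_SS hT.2⟩

lemma relative_of_compact {T : E ≃ₗᵢ[ℝ] E} (hT : CompactPert T) :
    0 < disp T.toContinuousLinearEquiv ∧ ∃ m : ℕ → ℕ, ∀ j : ℕ, 1 ≤ j →
      Width (m j) (disp T.toContinuousLinearEquiv / j) T.toContinuousLinearEquiv := by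
  rw [compactPert_iff] at hT
  obtain ⟨h1, h2⟩ := hT
  have h0 : 0 < ‖op T - 1‖ := by
    rw [norm_pos_iff, sub_ne_zero]
    intro h
    rw [← Pool.H590R3.Ab.op_one] at h
    exact h1 (op_injective h)
  have h3 : ∀ j : ℕ, ∃ m : ℕ, 1 ≤ j → Bn m (‖op T - 1‖ / j) (op T - 1) := by
    intro j
    by_cases hj : 1 ≤ j
    · have hj0 : (0 : ℝ) < j := by exact_mod_cast hj
      obtain ⟨m, hm⟩ := Bn_of_KK h2 (show 0 < ‖op T - 1‖ / j by positivity)
      exact ⟨m, fun _ => hm⟩
    · exact ⟨0, fun h => absurd h hj⟩
  choose m hm using h3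
  exact ⟨h0, m, fun j hj => hm j hj⟩

end

theorem result :
    ∀ (E : Type) [NormedAddCommGroup E] [NormedSpace ℝ E] [CompleteSpace E],
      ¬ FiniteDimensional ℝ E →
      -- the surjective almost isometries have dense orbits on the unit sphere
      (∀ x y : E, ‖x‖ = 1 → ‖y‖ = 1 → ∀ ε : ℝ, 0 < ε →
        ∃ T : E ≃L[ℝ] E, AlmostIso ε T ∧ ‖T x - y‖ < ε) →
      -- one isometry
      (IsHilbert E ↔ ∃ T : E ≃ₗᵢ[ℝ] E, CompactPert T) ∧
      (IsHilbert E ↔ ∃ T : E ≃ₗᵢ[ℝ] E, SingPert T) ∧
      -- a sequence of isometries, bounds relative to the displacement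
      (IsHilbert E ↔ ∃ m : ℕ → ℕ, ∀ n : ℕ, ∃ T : E ≃ₗᵢ[ℝ] E,
        0 < disp T.toContinuousLinearEquiv ∧ ∀ j : ℕ, 1 ≤ j → j ≤ n →
          Width (m j) (disp T.toContinuousLinearEquiv / j) T.toContinuousLinearEquiv) ∧
      -- a sequence of almost isometries
      (IsHilbert E ↔ ∃ (m : ℕ → ℕ) (δ : ℝ), 0 < δ ∧ ∀ n : ℕ, ∃ T : E ≃L[ℝ] E,
        AlmostIso (1 / (n + 1)) T ∧ δ ≤ disp T ∧ ∀ j : ℕ, 1 ≤ j → j ≤ n →
          Width (m j) (1 / j) T) := by
  intro E _ _ _ hE hAT
  have h12 : IsHilbert E → ∃ T : E ≃ₗᵢ[ℝ] E, CompactPert T := exists_of_isHilbert hE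
  have h23 : (∃ T : E ≃ₗᵢ[ℝ] E, CompactPert T) → ∃ m : ℕ → ℕ, ∀ n : ℕ, ∃ T : E ≃ₗᵢ[ℝ] E,
      0 < disp T.toContinuousLinearEquiv ∧ ∀ j : ℕ, 1 ≤ j → j ≤ n →
        Width (m j) (disp T.toContinuousLinearEquiv / j) T.toContinuousLinearEquiv := by
    rintro ⟨T, hT⟩
    obtain ⟨h1, m, hm⟩ := relative_of_compact hT
    exact ⟨m, fun n => ⟨T, h1, fun j hj _ => hm j hj⟩⟩
  have h34 : (∃ m : ℕ → ℕ, ∀ n : ℕ, ∃ T : E ≃ₗᵢ[ℝ] E,
      0 < disp T.toContinuousLinearEquiv ∧ ∀ j : ℕ, 1 ≤ j → j ≤ n →
        Width (m j) (disp T.toContinuousLinearEquiv / j) T.toContinuousLinearEquiv) →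
      ∃ (m : ℕ → ℕ) (δ : ℝ), 0 < δ ∧ ∀ n : ℕ, ∃ T : E ≃L[ℝ] E,
        AlmostIso (1 / (n + 1)) T ∧ δ ≤ disp T ∧ ∀ j : ℕ, 1 ≤ j → j ≤ n →
          Width (m j) (1 / j) T := by
    rintro ⟨m, hm⟩
    refine ⟨fun j => m (3 * j), 1 / 4, by norm_num, fun n => ?_⟩
    obtain ⟨T, h1, h2⟩ := large_of_relative' (m := m) hm n
    exact ⟨T.toContinuousLinearEquiv, isometry_almost T (by positivity), h1, fun j hj hjn =>
      h2 j hj hjn⟩
  have h41 : (∃ (m : ℕ → ℕ) (δ : ℝ), 0 < δ ∧ ∀ n : ℕ, ∃ T : E ≃L[ℝ] E,
        AlmostIso (1 / (n + 1)) T ∧ δ ≤ disp T ∧ ∀ j : ℕ, 1 ≤ j → j ≤ n →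
          Width (m j) (1 / j) T) → IsHilbert E := by
    rintro ⟨m, δ, hδ, h⟩
    choose T hT1 hT2 hT3 using h
    exact isHilbert_of (parallelogram_of_bern hE hAT m hδ T hT1 hT2 hT3)
  exact ⟨⟨h12, fun h => h41 (h34 (h23 h))⟩,
    ⟨fun h => (h12 h).imp fun _ => singPert_of_compactPert,
      fun ⟨T, hT⟩ => h41 (h34 (h23 ⟨T, compactPert_of_singPert hT⟩))⟩,
    ⟨fun h => h23 (h12 h), fun h => h41 (h34 h)⟩, ⟨fun h => h34 (h23 (h12 h)), h41⟩⟩

end Pool.Agent.Results.MP_cc72b1_an.CompactPerturbations
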