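import Pool.Agent.V5helper39.BM.Main

/-!
# Banach-Mazur rotation problem: how the second derivatives of a transitive norm vary

Let `E` be an infinite-dimensional separable Banach space with transitive norm, isomorphic to a
Hilbert space, and let `A x` be the second derivative of `‖·‖² / 2` at the unit vector `x` (it exists
by the starting file `HilbertianHessian`). Then `E` is a Hilbert space if

(a) all differences `A x - A y` are compact operators `E → E*`, or
(b) the closure of `{A x}` for pointwise convergence is separable for the operator norm, or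
(c) `{A x}` itself is separable for the operator norm, or the square of the norm has at one unit
    vector a second order Taylor expansion which is uniform in the direction; and `E` is stable
    in the sense of Krivine and Maurey, or has strongly separable types, or has a weakly null
    sequence with `A x (y n) (y n) → 1` for all unit vectors `x`.

Proof outline (files `Pool/Agent/V5helper39/BM/*`, `Pool/Agent/V5helper21/BM/*`).

* `Milman`, `Dent`, `Fixed`: a fixed point theorem of Namioka-Asplund type for groups acting on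
  compact convex sets of functions which are separable for a weighted sup-norm (dentability).
* `Haydon`: the closed convex hull of a compact norm separable set is norm separable.
* `FPH`, (b): so there is a quadratic form in the closed convex hull of the Hessians which is
  invariant under all isometries; by transitivity it is a multiple of `‖·‖²`.
* `STA`, `TYP`: stable separable spaces have strongly separable types; if the second order
  expansions are uniform, strongly separable types give the hypothesis of (b).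
* `Taylor`, `Cpt`, `Fre`: norm separability of `{A x}` (Baire category), compactness of the
  differences, or one Taylor expansion give uniform second order expansions.
* `Clt`: if `A x (y n) (y n) → 1`, adding many small multiples of far `y n` gives `‖x‖² + 1` in the
  limit (a deterministic central limit theorem), and a second such limit shows that the norm
  satisfies the parallelogram law.
-/

set_option autoImplicit false

namespace Pool.Agent.Results.MP_cc72b1_an.HessianVariation

open Filter Topology Asymptotics TopologicalSpace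

/-- `E` is linearly isometric to a Hilbert space -/
def IsHilbert (E : Type) [NormedAddCommGroup E] [NormedSpace ℝ E] : Prop :=
  ∃ (H : Type) (_ : NormedAddCommGroup H) (_ : InnerProductSpace ℝ H) (_ : CompleteSpace H),
    Nonempty (E ≃ₗᵢ[ℝ] H)

/-- `E` is linearly isomorphic to a Hilbert space -/
def Hilbertian (E : Type) [NormedAddCommGroup E] [NormedSpace ℝ E] : Prop :=
  ∃ (H : Type) (_ : NormedAddCommGroup H) (_ : InnerProductSpace ℝ H) (_ : CompleteSpace H),
    Nonempty (E ≃L[ℝ] H)

/-- transitive norms -/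
def Transitive (E : Type) [NormedAddCommGroup E] [NormedSpace ℝ E] : Prop :=
  ∀ x y : E, ‖x‖ = 1 → ‖y‖ = 1 → ∃ T : E ≃ₗᵢ[ℝ] E, T x = y

/-- stable spaces (Krivine-Maurey): the iterated limits of `‖x n + y m‖` agree if they exist -/
def Stable (E : Type) [NormedAddCommGroup E] [NormedSpace ℝ E] : Prop :=
  ∀ (x y : ℕ → E) (R : ℝ), (∀ n, ‖x n‖ ≤ R) → (∀ n, ‖y n‖ ≤ R) → ∀ (g h : ℕ → ℝ) (a b : ℝ),
    (∀ n, Tendsto (fun m => ‖x n + y m‖) atTop (𝓝 (g n))) → Tendsto g atTop (𝓝 a) →
    (∀ m, Tendsto (fun n => ‖x n + y m‖) atTop (𝓝 (h m))) → Tendsto h atTop (𝓝 b) → a = b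

/-- the types of points of the unit ball: pointwise limits of functions `‖· + y‖`, `‖y‖ ≤ 1` -/
def BallTypes (E : Type) [NormedAddCommGroup E] : Set (E → ℝ) :=
  closure {τ : E → ℝ | ∃ y : E, ‖y‖ ≤ 1 ∧ τ = fun x => ‖x + y‖}

/-- strongly separable types: for every `ε` there are countably many functions such that every
type of points of the unit ball is within `ε` of one of them, uniformly on the unit ball -/
def SepTypes (E : Type) [NormedAddCommGroup E] [NormedSpace ℝ E] : Prop :=
  ∀ ε : ℝ, 0 < ε → ∃ c : ℕ → E → ℝ, ∀ τ ∈ BallTypes E, ∃ n, ∀ x : E, ‖x‖ ≤ 1 →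
    |τ x - c n x| ≤ ε

/-- `A x` is the second derivative of `‖·‖² / 2` at the unit vector `x` (and `f x` the first):
symmetric, with second order Taylor expansions in all directions -/
def IsHessian {E : Type} [NormedAddCommGroup E] [NormedSpace ℝ E] (f : E → E →L[ℝ] ℝ)
    (A : E → E →L[ℝ] E →L[ℝ] ℝ) : Prop :=
  ∀ x, ‖x‖ = 1 → (∀ v w, A x v w = A x w v) ∧
    ∀ w, (fun t : ℝ => ‖x + t • w‖ ^ 2 - 1 - 2 * t * f x w - t ^ 2 * A x w w)
      =o[𝓝 0] fun t : ℝ => t ^ 2

theorem result :
    ∀ (E : Type) [NormedAddCommGroup E] [NormedSpace ℝ E] [CompleteSpace E] [SeparableSpace E],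
      Transitive E → Hilbertian E → ¬ FiniteDimensional ℝ E →
        ∃ (f : E → E →L[ℝ] ℝ) (A : E → E →L[ℝ] E →L[ℝ] ℝ), IsHessian f A ∧
          (∀ (f' : E → E →L[ℝ] ℝ) (A' : E → E →L[ℝ] E →L[ℝ] ℝ), IsHessian f' A' →
            ∀ x, ‖x‖ = 1 → A' x = A x ∧ f' x = f x) ∧
          -- (a)
          ((∀ x y : E, ‖x‖ = 1 → ‖y‖ = 1 → IsCompactOperator (A x - A y)) → IsHilbert E) ∧
          -- (b)
          (IsSeparable {B : E →L[ℝ] E →L[ℝ] ℝ | (fun p : E × E => B p.1 p.2) ∈
              closure {q : E × E → ℝ | ∃ x : E, ‖x‖ = 1 ∧ q = fun p => A x p.1 p.2}} →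
            IsHilbert E) ∧
          -- (c)
          ((IsSeparable {B : E →L[ℝ] E →L[ℝ] ℝ | ∃ x : E, ‖x‖ = 1 ∧ B = A x} ∨
              ∃ (e : E) (φ : E →L[ℝ] ℝ) (B : E →L[ℝ] E →L[ℝ] ℝ), ‖e‖ = 1 ∧
                (fun v : E => ‖e + v‖ ^ 2 - 1 - φ v - B v v) =o[𝓝 0] fun v : E => ‖v‖ ^ 2) →
            (Stable E ∨ SepTypes E ∨ ∃ y : ℕ → E, (∃ R, ∀ n, ‖y n‖ ≤ R) ∧
              (∀ φ : StrongDual ℝ E, Tendsto (fun n => φ (y n)) atTop (𝓝 0)) ∧
              ∀ x, ‖x‖ = 1 → Tendsto (fun n => A x (y n) (y n)) atTop (𝓝 1)) →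
            IsHilbert E) := by
  intro E _ _ _ _ hT hH hinf
  obtain ⟨f, A, c, C, hA⟩ := V5helper39.BM.exists_HF hH hT
  refine ⟨f, A, fun x hx => ⟨hA.symm x hx, hA.exp x hx⟩, fun f' A' h => ?_, fun h => ?_,
    fun h => ?_, fun h1 h2 => ?_⟩
  · exact V5helper39.BM.field_unique hA (fun x hx => (h x hx).1) (fun x hx => (h x hx).2)
  · obtain ⟨H, _, _, _, hΦ⟩ := hH
    obtain ⟨hU, hy⟩ := V5helper39.BM.t_CPT E H f A c C hΦ hinf hA hT h
    exact V5helper39.BM.isHilbert_of_par (V5helper39.BM.t_CLT E f A c C hA hU hy)
  · exact V5helper39.BM.isHilbert_of_par (V5helper21.BM.t_FPH E f A c C hA hT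
      (V5helper21.BM.t_SEP E f A c C hA h))
  · have hU : V5helper39.BM.UE E f A := by
      rcases h1 with h1 | h1
      · exact V5helper39.BM.UE_of_UC hA (V5helper39.BM.UC_of_sep hA hT
          ((V5helper39.BM.csep_iff (Z := E →L[ℝ] E →L[ℝ] ℝ) _).1 h1))
      · exact V5helper39.BM.t_FRE E f A c C hA hT h1
    exact V5helper39.BM.isHilbert_of_par (V5helper39.BM.par_of_UE hA hT hU h2)

end Pool.Agent.Results.MP_cc72b1_an.HessianVariation
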