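import Pool.Agent.V5helper39.BG.Main

/-!
# Banach-Mazur rotation problem: the exponent of a stable almost transitive space

Let `E` be an infinite-dimensional separable normed space (complete or not) which is almost
transitive and stable in the sense of Krivine and Maurey. Then there is `p ≥ 1` such that

1. for every unit vector `e` there are isometries `T k` of `E` with
   `‖v + t T k e‖ ^ p → ‖v‖ ^ p + |t| ^ p` for all `v` in `E` and all real `t`; if `E` is reflexive,
   then moreover `T k e → 0` weakly;
2. every sequence of unit vectors has a subsequence `z (ψ n)` for which there are isometries `T k`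
   such that the limits `G k v t = lim_n ‖v + t T k z (ψ n)‖` exist and
   `G k v t ^ p → ‖v‖ ^ p + |t| ^ p` as `k → ∞`, for all `v` and `t`;
3. `r ≤ p ≤ q` if `E` has type `r` and cotype `q`, and `p = 2` if `E` is isomorphic to a Hilbert
   space;
4. if the norm of `E` has approximate second order expansions, for example if it is twice Fréchet
   differentiable at one point of the unit sphere, then `p ≥ 2`, and if `p = 2` then the norm of `E`
   satisfies the parallelogram law.

In particular, a separable stable almost transitive Banach space with cotype `q` for all `q > 2` (for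
example, isomorphic to a Hilbert space) whose norm is twice Fréchet differentiable at one point is a
Hilbert space.

Proof outline (files `Pool/Agent/V5helper39/BG/*`, and `STA`, `COM`, `Haydon`, `Fixed`, `Apx` of
`Pool/Agent/V5helper39/BM`, `Pool/Agent/V5helper21/BM`). A type is a function
`τ v = lim ‖v + y n‖` for a sequence of unit vectors `y n`.

* `Lip`: by stability the types are separable for uniform convergence on bounded sets, so a fixed
  point theorem of Namioka-Asplund type gives an invariant mean of `Θ (τ v)`, for all contractions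
  `Θ` of the line at once, over any closed set of types invariant under isometries. By almost
  transitivity this is a function `m (‖v‖, Θ)`.
* `Sq`: by stability, differences of a separated sequence give types which dominate the norm.
* `Walk`: random walks with small independent steps which have such types. A potential function shows
  that the norm `‖v + R‖` of the walk `R` started at `v` is concentrated at a value `u n ‖v‖`.
* `Noc`: no type which dominates the norm agrees with the norm on a sphere: otherwise `E` would contain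
  a sequence like the unit vectors of `c_0`, for which the iterated limits differ. So the walks leave
  every ball (`Grw`).
* `Inv`: stop the walk at norm one, steps tending to zero: this gives a type which depends on the norm
  only, `τ v = F ‖v‖`.
* `Grw`, `Boh`: by stability two such types may be added in both orders, so
  `(r, s) ↦ s F (r / s)` is an associative and commutative operation, homogeneous and
  nondecreasing, which is strictly larger than its arguments, so `F r = (1 + r ^ p) ^ (1 / p)`.
* `Orb`: for any type `τ` in the closed orbit of a type, `τ (t y n) → F t` by stability, so the mean over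
  the orbit of `Θ (τ v)` is `Θ (F ‖v‖)` for all contractions `Θ`; so the closed orbit contains `F ‖·‖`.
* `Two`, `Tco`: type, cotype, and the case of a space isomorphic to a Hilbert space.
* `Sec`: if `‖e + v‖² = 1 + φ v + B v v + …` with a uniform remainder, then the bounded quadratic
  forms `B (T_k⁻¹ v) (T_k⁻¹ v)` approach `F ‖v‖ ^ 2 - 1` up to a small multiple of `‖v‖²`.
-/

set_option autoImplicit false

namespace Pool.Agent.Results.MP_cc72b1_an.StableExponent

open Filter Topology TopologicalSpace

section

variable (E : Type) [NormedAddCommGroup E] [NormedSpace ℝ E]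

/-- almost transitive norms: the orbits of the isometry group are dense in the unit sphere -/
def AlmostTransitive : Prop :=
  ∀ x y : E, ‖x‖ = 1 → ‖y‖ = 1 → ∀ ε : ℝ, 0 < ε → ∃ T : E ≃ₗᵢ[ℝ] E, ‖T x - y‖ < ε

/-- stable spaces (Krivine-Maurey): the iterated limits of `‖x n + y m‖` agree if they exist -/
def Stable : Prop :=
  ∀ (x y : ℕ → E) (R : ℝ), (∀ n, ‖x n‖ ≤ R) → (∀ n, ‖y n‖ ≤ R) → ∀ (g h : ℕ → ℝ) (a b : ℝ),
    (∀ n, Tendsto (fun m => ‖x n + y m‖) atTop (𝓝 (g n))) → Tendsto g atTop (𝓝 a) →
    (∀ m, Tendsto (fun n => ‖x n + y m‖) atTop (𝓝 (h m))) → Tendsto h atTop (𝓝 b) → a = b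

/-- some choice of signs satisfies the inequality of type `r`; this holds if `E` has Rademacher
type `r` -/
def WeakType (r : ℝ) : Prop :=
  ∃ C : ℝ, ∀ (n : ℕ) (x : Fin n → E), ∃ ε : Fin n → Bool,
    ‖∑ i, (if ε i then x i else -x i)‖ ^ r ≤ C * ∑ i, ‖x i‖ ^ r

/-- some choice of signs satisfies the inequality of cotype `q`; this holds if `E` has Rademacher
cotype `q` -/
def WeakCotype (q : ℝ) : Prop :=
  ∃ c : ℝ, 0 < c ∧ ∀ (n : ℕ) (x : Fin n → E), ∃ ε : Fin n → Bool,
    c * ∑ i, ‖x i‖ ^ q ≤ ‖∑ i, (if ε i then x i else -x i)‖ ^ q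

/-- approximate second order expansions of the square of the norm at some unit vectors, with a
remainder at most `η ‖v‖²` for small `v`. This holds if the norm is twice Fréchet differentiable at
one point of the unit sphere. -/
def SecondOrder : Prop :=
  ∀ η : ℝ, 0 < η → ∃ (e : E) (φ : E →L[ℝ] ℝ) (B : E →L[ℝ] E →L[ℝ] ℝ) (δ : ℝ), ‖e‖ = 1 ∧
    0 < δ ∧ ∀ v : E, ‖v‖ ≤ δ → |‖e + v‖ ^ 2 - 1 - φ v - B v v| ≤ η * ‖v‖ ^ 2

end

theorem result :
    ∀ (E : Type) [NormedAddCommGroup E] [NormedSpace ℝ E] [SeparableSpace E],
      ¬ FiniteDimensional ℝ E → AlmostTransitive E → Stable E →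
        ∃ p : ℝ, 1 ≤ p ∧
          (∀ e : E, ‖e‖ = 1 → ∃ T : ℕ → E ≃ₗᵢ[ℝ] E,
            (∀ (v : E) (t : ℝ), Tendsto (fun k => ‖v + t • T k e‖ ^ p) atTop
              (𝓝 (‖v‖ ^ p + |t| ^ p))) ∧
            (Function.Surjective (NormedSpace.inclusionInDoubleDual ℝ E) →
              ∀ φ : StrongDual ℝ E, Tendsto (fun k => φ (T k e)) atTop (𝓝 0))) ∧
          (∀ z : ℕ → E, (∀ n, ‖z n‖ = 1) →
            ∃ (ψ : ℕ → ℕ) (T : ℕ → E ≃ₗᵢ[ℝ] E) (G : ℕ → E → ℝ → ℝ), StrictMono ψ ∧
              (∀ k v t, Tendsto (fun n => ‖v + t • T k (z (ψ n))‖) atTop (𝓝 (G k v t))) ∧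
              ∀ (v : E) (t : ℝ), Tendsto (fun k => G k v t ^ p) atTop (𝓝 (‖v‖ ^ p + |t| ^ p))) ∧
          (∀ r : ℝ, 0 < r → WeakType E r → r ≤ p) ∧
          (∀ q : ℝ, 0 < q → WeakCotype E q → p ≤ q) ∧
          (∀ (H : Type) [NormedAddCommGroup H] [InnerProductSpace ℝ H] [CompleteSpace H],
            Nonempty (E ≃L[ℝ] H) → p = 2) ∧
          (SecondOrder E → 2 ≤ p ∧ (p = 2 → ∀ x y : E,
            ‖x + y‖ * ‖x + y‖ + ‖x - y‖ * ‖x - y‖ = 2 * (‖x‖ * ‖x‖ + ‖y‖ * ‖y‖))) := by
  intro E _ _ _ hinf hAT hst
  exact V5helper39.BG.main hinf hAT hst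

end Pool.Agent.Results.MP_cc72b1_an.StableExponent
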