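import Pool.Agent.V5helper39.BM.Main

/-!
# Banach-Mazur rotation problem: stable spaces with totally bounded spaces of pair orbits

Let `E` be a separable Banach space with transitive norm, such that up to every `ε` there are only
finitely many pairs of unit vectors modulo linear isometries (for example the isometry group is
Roelcke precompact, or `E` is separably categorical). If `E` is stable in the sense of Krivine and
Maurey, or has strongly separable types, then `E` is a Hilbert space.

Proof outline (files `Pool/Agent/V5helper39/BM/*`, `Pool/Agent/V5helper21/BM/*`).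

* By the starting file `PairOrbits` the space is isomorphic to a Hilbert space, and by
  `HilbertianHessian` there is an equivariant field of Hessians `A x`, continuous in `x` for fixed
  directions.
* `Pairs`: by the total boundedness of the pair orbits the field is uniformly continuous for the
  operator norm; `Taylor`: so the second order expansions are uniform.
* `STA`, `TYP`: stable separable spaces have strongly separable types, and then the closure of
  `{A x}` for pointwise convergence is norm separable.
* `Milman`, `Dent`, `Fixed`, `Haydon`, `FPH`: a fixed point theorem of Namioka-Asplund type gives a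
  quadratic form in the closed convex hull of `{A x}` which is invariant under all isometries; by
  transitivity it is a multiple of `‖·‖²`.
-/

set_option autoImplicit false

namespace Pool.Agent.Results.MP_cc72b1_an.StablePairOrbits

open Filter Topology TopologicalSpace

/-- `E` is linearly isometric to a Hilbert space -/
def IsHilbert (E : Type) [NormedAddCommGroup E] [NormedSpace ℝ E] : Prop :=
  ∃ (H : Type) (_ : NormedAddCommGroup H) (_ : InnerProductSpace ℝ H) (_ : CompleteSpace H),
    Nonempty (E ≃ₗᵢ[ℝ] H)

/-- transitive norms -/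
def Transitive (E : Type) [NormedAddCommGroup E] [NormedSpace ℝ E] : Prop :=
  ∀ x y : E, ‖x‖ = 1 → ‖y‖ = 1 → ∃ T : E ≃ₗᵢ[ℝ] E, T x = y

/-- up to every `ε` there are only finitely many pairs of unit vectors modulo isometries -/
def PairCompact (E : Type) [NormedAddCommGroup E] [NormedSpace ℝ E] : Prop :=
  ∀ ε : ℝ, 0 < ε → ∃ P : Finset (E × E), ∀ x z : E, ‖x‖ = 1 → ‖z‖ = 1 →
    ∃ p ∈ P, ∃ T : E ≃ₗᵢ[ℝ] E, ‖T x - p.1‖ ≤ ε ∧ ‖T z - p.2‖ ≤ ε

/-- stable spaces (Krivine-Maurey): the iterated limits of `‖x n + y m‖` agree if they exist -/
def Stable (E : Type) [NormedAddCommGroup E] [NormedSpace ℝ E] : Prop :=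
  ∀ (x y : ℕ → E) (R : ℝ), (∀ n, ‖x n‖ ≤ R) → (∀ n, ‖y n‖ ≤ R) → ∀ (g h : ℕ → ℝ) (a b : ℝ),
    (∀ n, Tendsto (fun m => ‖x n + y m‖) atTop (𝓝 (g n))) → Tendsto g atTop (𝓝 a) →
    (∀ m, Tendsto (fun n => ‖x n + y m‖) atTop (𝓝 (h m))) → Tendsto h atTop (𝓝 b) → a = b

/-- the types of points of the unit ball: pointwise limits of functions `‖· + y‖`, `‖y‖ ≤ 1` -/
def BallTypes (E : Type) [NormedAddCommGroup E] : Set (E → ℝ) :=
  closure {τ : E → ℝ | ∃ y : E, ‖y‖ ≤ 1 ∧ τ = fun x => ‖x + y‖}

/-- strongly separable types: for every `ε` there are countably many functions such that every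
type of points of the unit ball is within `ε` of one of them, uniformly on the unit ball -/
def SepTypes (E : Type) [NormedAddCommGroup E] [NormedSpace ℝ E] : Prop :=
  ∀ ε : ℝ, 0 < ε → ∃ c : ℕ → E → ℝ, ∀ τ ∈ BallTypes E, ∃ n, ∀ x : E, ‖x‖ ≤ 1 →
    |τ x - c n x| ≤ ε

theorem result :
    ∀ (E : Type) [NormedAddCommGroup E] [NormedSpace ℝ E] [CompleteSpace E] [SeparableSpace E],
      Transitive E → PairCompact E → Stable E ∨ SepTypes E → IsHilbert E := by
  intro E _ _ _ _ hT hP h
  exact V5helper39.BM.hilbert_of_PC hT hP h

end Pool.Agent.Results.MP_cc72b1_an.StablePairOrbits
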